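import Pool.Agent.Helper28.LV.StL

/-!
# Project LV, module LPOL: polynomiality of psi in the coordinate z
-/

set_option autoImplicit false

namespace Pool.Agent.Helper8.LV

open Pool.Agent.Helper14.CV Pool.Agent.Helper28.WK Pool.Agent.Helper28.LV

/-- the coefficients -/
private def w (a j : ℕ) : ℤ := (-1 : ℤ) ^ j * ((a + 1).choose j : ℤ)

private theorem sum_w (a : ℕ) : ∑ j ∈ Finset.range (a + 2), w a j = 0 := by
  have := Int.alternating_sum_range_choose (n := a + 1)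
  simpa [w] using this

private theorem sum_w_const {R : Type} [AddCommGroup R] (a : ℕ) (k : R) :
    ∑ j ∈ Finset.range (a + 2), w a j • k = 0 := by
  rw [← Finset.sum_smul, sum_w, zero_smul]

private theorem Nb_eq {R : Type} [AddCommGroup R] (a : ℕ) (h : ℤ) (G : ℤ → ℤ → R) (x y : ℤ) :
    Nb a h G x y = ∑ j ∈ Finset.range (a + 2), w a j • G (x + j * h * y) y := rfl

private theorem Nc_eq {R : Type} [AddCommGroup R] (a : ℕ) (c : ℤ) (G : ℤ → ℤ → R) (x y : ℤ) :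
    Nc a c G x y = ∑ j ∈ Finset.range (a + 2), w a j • G x (j * c * x + y) := rfl

private theorem nz1 {x y : ℤ} (t : ℤ) (h : x ≠ 0 ∨ y ≠ 0) : x + t * y ≠ 0 ∨ y ≠ 0 := by
  by_cases hy : y = 0
  · left
    rw [hy, mul_zero, add_zero]
    rcases h with h | h
    · exact h
    · exact absurd hy h
  · exact Or.inr hy

private theorem nz2 {x y : ℤ} (t : ℤ) (h : x ≠ 0 ∨ y ≠ 0) : x ≠ 0 ∨ t * x + y ≠ 0 := by
  by_cases hx : x = 0
  · right
    rw [hx, mul_zero, zero_add]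
    rcases h with h | h
    · exact absurd hx h
    · exact h
  · exact Or.inl hx

private theorem nz3 {x y : ℤ} (t : ℤ) (ht : t ≠ 0) (h : x ≠ 0 ∨ y ≠ 0) : t * x ≠ 0 ∨ y ≠ 0 :=
  h.imp (mul_ne_zero ht) id

private theorem nz4 {x y : ℤ} (t : ℤ) (ht : t ≠ 0) (h : x ≠ 0 ∨ y ≠ 0) : x ≠ 0 ∨ t * y ≠ 0 :=
  h.imp id (mul_ne_zero ht)

private theorem const_of_EqC {R : Type} [AddCommGroup R] {F : ℤ → ℤ → R} (h : EqC F 0)
    {x y x' y' : ℤ} (h1 : x ≠ 0 ∨ y ≠ 0) (h2 : x' ≠ 0 ∨ y' ≠ 0) : F x y = F x' y' := by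
  obtain ⟨c, hc⟩ := h
  rw [hc x y h1, hc x' y' h2]
  simp

private theorem EqC_of_const {R : Type} [AddCommGroup R] {F : ℤ → ℤ → R}
    (h : ∀ x y x' y' : ℤ, (x ≠ 0 ∨ y ≠ 0) → (x' ≠ 0 ∨ y' ≠ 0) → F x y = F x' y') : EqC F 0 := by
  refine ⟨F 1 0, fun x y hxy => ?_⟩
  rw [h x y 1 0 hxy (Or.inl one_ne_zero)]
  simp

private theorem ext3 {p : ℕ} [Fact p.Prime] {x y : ℤ_[p]}
    (h : ∀ M : ℕ, 3 ≤ M → PadicInt.toZModPow M x = PadicInt.toZModPow M y) : x = y := by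
  apply PadicInt.ext_of_toZModPow.1
  intro n
  rcases le_or_gt 3 n with hn | hn
  · exact h n hn
  · have h2 := h 3 le_rfl
    rw [← PadicInt.cast_toZModPow n 3 (by omega) x, ← PadicInt.cast_toZModPow n 3 (by omega) y, h2]

theorem hLPol : StLPol := by
  intro p hp a n G ψ hG hψ hL hu hGb hGc
  have hp0 : (p : ℤ) ≠ 0 := by exact_mod_cast hp.out.ne_zero
  obtain ⟨k, hk⟩ := hu
  have hstep : ∀ x y : ℤ, (x ≠ 0 ∨ y ≠ 0) → ψ (p * x) y = ψ x y + ((4 : ℤ) • G x y + k) := by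
    intro x y hxy
    have h1 := hk x y hxy
    have h2 : ψ (p * x) y - ψ x y = (4 : ℤ) • G x y + k := by
      simpa [act] using h1
    rw [← h2]
    abel
  -- (1)
  have h1 : ∀ (h x y : ℤ), (x ≠ 0 ∨ y ≠ 0) →
      Nb a (p * h) ψ (p * x) y = Nb a h ψ x y + (4 : ℤ) • Nb a h G x y := by
    intro h x y hxy
    rw [Nb_eq, Nb_eq, Nb_eq, Finset.smul_sum]
    have e : ∀ j ∈ Finset.range (a + 2), w a j • ψ (p * x + j * (p * h) * y) y =
        w a j • ψ (x + j * h * y) y + (4 : ℤ) • (w a j • G (x + j * h * y) y) + w a j • k := by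
      intro j _
      have e1 : (p : ℤ) * x + j * (p * h) * y = p * (x + j * h * y) := by ring
      rw [e1, hstep _ _ (nz1 (j * h) hxy), smul_add, smul_add, smul_comm (w a j) (4 : ℤ)]
      abel
    rw [Finset.sum_congr rfl e, Finset.sum_add_distrib, Finset.sum_add_distrib, sum_w_const,
      add_zero]
  -- iteration
  have h2 : ∀ (h : ℤ) (m : ℕ) (x y x' y' : ℤ), (x ≠ 0 ∨ y ≠ 0) →
      (x' ≠ 0 ∨ y' ≠ 0) → Nb a (p ^ m * h) ψ (p ^ m * x) y - Nb a (p ^ m * h) ψ (p ^ m * x') y' =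
        Nb a h ψ x y - Nb a h ψ x' y' := by
    intro h m
    induction m with
    | zero =>
      intro x y x' y' _ _
      simp
    | succ m ih =>
      intro x y x' y' hv hv'
      have hpm : (p : ℤ) ^ m ≠ 0 := pow_ne_zero _ hp0
      have e1 : (p : ℤ) ^ (m + 1) * h = p * (p ^ m * h) := by ring
      have e2 : (p : ℤ) ^ (m + 1) * x = p * (p ^ m * x) := by ring
      have e3 : (p : ℤ) ^ (m + 1) * x' = p * (p ^ m * x') := by ring
      rw [e1, e2, e3, h1 _ _ _ (nz3 _ hpm hv), h1 _ _ _ (nz3 _ hpm hv'),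
        const_of_EqC (hGb (p ^ m * h)) (nz3 _ hpm hv) (nz3 _ hpm hv'),
        ← ih x y x' y' hv hv']
      abel
  -- reduction
  have h3 : ∀ (M : ℕ), 3 ≤ M → ∀ h : ℤ, (p : ℤ) ^ M ∣ h → ∀ (x y x' y' : ℤ), (x ≠ 0 ∨ y ≠ 0) →
      (x' ≠ 0 ∨ y' ≠ 0) → PadicInt.toZModPow M (Nb a h ψ x y) =
        PadicInt.toZModPow M (Nb a h ψ x' y') := by
    intro M hM h hh
    have hex : ∀ j : ℕ, ∃ c : ZMod (p ^ M), ∀ x y : ℤ, (x ≠ 0 ∨ y ≠ 0) →
        redP M ψ (x + j * h * y) y = redP M ψ x y + c := by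
      intro j
      obtain ⟨c, hc⟩ := (hL M hM).2 1 (j * h) 0 1 (by ring) (Dvd.dvd.mul_left hh _) (dvd_zero _)
      refine ⟨c, fun x y hxy => ?_⟩
      have := hc x y hxy
      simpa [act] using this
    choose c hc using hex
    have key : ∀ x y : ℤ, (x ≠ 0 ∨ y ≠ 0) → PadicInt.toZModPow M (Nb a h ψ x y) =
        ∑ j ∈ Finset.range (a + 2), w a j • c j := by
      intro x y hxy
      rw [Nb_eq, map_sum]
      have e : ∀ j ∈ Finset.range (a + 2), PadicInt.toZModPow M (w a j • ψ (x + j * h * y) y) =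
          w a j • redP M ψ x y + w a j • c j := by
        intro j _
        rw [map_zsmul, ← smul_add, ← hc j x y hxy]
        rfl
      rw [Finset.sum_congr rfl e, Finset.sum_add_distrib, sum_w_const, zero_add]
    intro x y x' y' hv hv'
    rw [key x y hv, key x' y' hv']
  -- second direction
  have gA : ∀ (c : ℤ), (p : ℤ) ^ n ∣ c → ∀ (x y x' y' : ℤ), (x ≠ 0 ∨ y ≠ 0) →
      (x' ≠ 0 ∨ y' ≠ 0) → Nc a c (act p 0 0 1 ψ) x y - Nc a c (act p 0 0 1 ψ) x' y' =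
        Nc a c ψ x y - Nc a c ψ x' y' := by
    intro c hc
    have key : ∀ x y : ℤ, (x ≠ 0 ∨ y ≠ 0) →
        Nc a c (act p 0 0 1 ψ) x y = Nc a c ψ x y + (4 : ℤ) • Nc a c G x y := by
      intro x y hxy
      rw [Nc_eq, Nc_eq, Nc_eq, Finset.smul_sum]
      have e : ∀ j ∈ Finset.range (a + 2), w a j • (act p 0 0 1 ψ) x (j * c * x + y) =
          w a j • ψ x (j * c * x + y) + (4 : ℤ) • (w a j • G x (j * c * x + y)) + w a j • k := by
        intro j _
        have e1 : (act p 0 0 1 ψ) x (j * c * x + y) = ψ (p * x) (j * c * x + y) := by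
          simp [act]
        rw [e1, hstep _ _ (nz2 (j * c) hxy), smul_add, smul_add, smul_comm (w a j) (4 : ℤ)]
        abel
      rw [Finset.sum_congr rfl e, Finset.sum_add_distrib, Finset.sum_add_distrib, sum_w_const,
        add_zero]
    intro x y x' y' hv hv'
    rw [key x y hv, key x' y' hv', const_of_EqC (hGc c hc) hv hv']
    abel
  have gB : ∀ (c x y : ℤ), Nc a (p * c) (act p 0 0 1 ψ) x y = Nc a c ψ (p * x) y := by
    intro c x y
    rw [Nc_eq, Nc_eq]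
    refine Finset.sum_congr rfl fun j _ => ?_
    have e1 : (act p 0 0 1 ψ) x (j * (p * c) * x + y) = ψ (p * x) (j * (p * c) * x + y) := by
      simp [act]
    rw [e1]
    congr 2
    ring
  have gC : ∀ (c : ℤ), (p : ℤ) ^ n ∣ c → ∀ (m : ℕ) (x y x' y' : ℤ), (x ≠ 0 ∨ y ≠ 0) →
      (x' ≠ 0 ∨ y' ≠ 0) → Nc a (p ^ m * c) (act p 0 0 1 ψ) x y -
        Nc a (p ^ m * c) (act p 0 0 1 ψ) x' y' =
        Nc a c (act p 0 0 1 ψ) (p ^ m * x) y - Nc a c (act p 0 0 1 ψ) (p ^ m * x') y' := by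
    intro c hc m
    induction m with
    | zero =>
      intro x y x' y' _ _
      simp
    | succ m ih =>
      intro x y x' y' hv hv'
      have e1 : (p : ℤ) ^ (m + 1) * c = p * (p ^ m * c) := by ring
      have e2 : (p : ℤ) ^ (m + 1) * x = p ^ m * (p * x) := by ring
      have e3 : (p : ℤ) ^ (m + 1) * x' = p ^ m * (p * x') := by ring
      rw [e1, gB, gB, ← gA (p ^ m * c) (Dvd.dvd.mul_left hc _) _ _ _ _ (nz3 _ hp0 hv)
        (nz3 _ hp0 hv'), ih _ _ _ _ (nz3 _ hp0 hv) (nz3 _ hp0 hv'), e2, e3]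
  have gD : ∀ (M : ℕ), 3 ≤ M → ∀ c : ℤ, (p : ℤ) ^ (M + n - 1) ∣ c → ∀ (x y x' y' : ℤ),
      (x ≠ 0 ∨ y ≠ 0) → (x' ≠ 0 ∨ y' ≠ 0) → PadicInt.toZModPow M (Nc a c ψ x y) =
        PadicInt.toZModPow M (Nc a c ψ x' y') := by
    intro M hM c hcM
    have hex : ∀ j : ℕ, ∃ d : ZMod (p ^ M), ∀ x y : ℤ, (x ≠ 0 ∨ y ≠ 0) →
        redP M ψ x (j * c * x + y) = redP M ψ x y + d := by
      intro j
      obtain ⟨d, hd⟩ := (hL M hM).2 1 0 (j * c) 1 (by ring) (dvd_zero _) (Dvd.dvd.mul_left hcM _)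
      refine ⟨d, fun x y hxy => ?_⟩
      have := hd x y hxy
      simpa [act] using this
    choose d hd using hex
    have key : ∀ x y : ℤ, (x ≠ 0 ∨ y ≠ 0) → PadicInt.toZModPow M (Nc a c ψ x y) =
        ∑ j ∈ Finset.range (a + 2), w a j • d j := by
      intro x y hxy
      rw [Nc_eq, map_sum]
      have e : ∀ j ∈ Finset.range (a + 2), PadicInt.toZModPow M (w a j • ψ x (j * c * x + y)) =
          w a j • redP M ψ x y + w a j • d j := by
        intro j _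
        rw [map_zsmul, ← smul_add, ← hd j x y hxy]
        rfl
      rw [Finset.sum_congr rfl e, Finset.sum_add_distrib, sum_w_const, zero_add]
    intro x y x' y' hv hv'
    rw [key x y hv, key x' y' hv']
  have gE : ∀ (c : ℤ) (m : ℕ) (x y : ℤ), (x ≠ 0 ∨ y ≠ 0) →
      Nc a c (act p 0 0 1 ψ) (p ^ m * x) (p ^ m * y) = Nc a c (act p 0 0 1 ψ) x y := by
    intro c m x y hxy
    rw [Nc_eq, Nc_eq]
    refine Finset.sum_congr rfl fun j _ => ?_
    have e1 : (act p 0 0 1 ψ) (p ^ m * x) (j * c * (p ^ m * x) + p ^ m * y) =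
        ψ (p ^ m * (p * x)) (p ^ m * (j * c * x + y)) := by
      simp only [act, zero_mul, add_zero, one_mul, zero_add]
      congr 1 <;> ring
    have e2 : (act p 0 0 1 ψ) x (j * c * x + y) = ψ (p * x) (j * c * x + y) := by
      simp [act]
    rw [e1, e2, hψ (p ^ m) _ _ (pow_ne_zero _ hp0) (nz3 _ hp0 (nz2 (j * c) hxy))]
  refine ⟨?_, ?_⟩
  · intro h
    apply EqC_of_const
    intro x y x' y' hv hv'
    rw [← sub_eq_zero]
    apply ext3
    intro M hM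
    have hpm : (p : ℤ) ^ M ≠ 0 := pow_ne_zero _ hp0
    rw [← h2 h M x y x' y' hv hv', map_sub, map_zero,
      h3 M hM (p ^ M * h) (Dvd.intro _ rfl) _ _ _ _ (nz3 _ hpm hv) (nz3 _ hpm hv'), sub_self]
  · intro c hc
    apply EqC_of_const
    intro x y x' y' hv hv'
    rw [← sub_eq_zero]
    apply ext3
    intro M hM
    have hpm : (p : ℤ) ^ M ≠ 0 := pow_ne_zero _ hp0
    have hd : (p : ℤ) ^ (M + n - 1) ∣ p ^ M * c := by
      have e : (p : ℤ) ^ (M + n) ∣ p ^ M * c := by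
        rw [pow_add]
        exact mul_dvd_mul_left _ hc
      exact (pow_dvd_pow _ (Nat.sub_le _ _)).trans e
    rw [← gE c M x y hv, ← gE c M x' y' hv',
      ← gC c hc M x (p ^ M * y) x' (p ^ M * y') (nz4 _ hpm hv) (nz4 _ hpm hv'),
      gA (p ^ M * c) (Dvd.dvd.mul_left hc _) _ _ _ _ (nz4 _ hpm hv) (nz4 _ hpm hv'),
      map_sub, map_zero, gD M hM (p ^ M * c) hd _ _ _ _ (nz4 _ hpm hv) (nz4 _ hpm hv'), sub_self]

end Pool.Agent.Helper8.LV
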